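import Pool.Agent.Lib.MP_3eb9f6_co.Family

namespace Pool.Agent.Lib.MP_3eb9f6_co

open Finset

variable {k Δ : ℕ}

lemma Pat.mem {a b c d i j : Fin k} (h : Pat a b c d i j) :
    i ∈ ({a, b, c, d} : Finset (Fin k)) ∧ j ∈ ({a, b, c, d} : Finset (Fin k)) := by
  unfold Pat at h
  split_ifs at h
  · rcases h with ⟨rfl, rfl⟩ | ⟨rfl, rfl⟩ | ⟨rfl, rfl⟩ <;> simp
  · rcases h with ⟨rfl, rfl⟩ | ⟨rfl, rfl⟩ | ⟨rfl, rfl⟩ <;> simp
  · rcases h with ⟨rfl, rfl⟩ | ⟨rfl, rfl⟩ | ⟨rfl, rfl⟩ <;> simp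

lemma card_four {a b c d : Fin k} (h1 : a < b) (h2 : b < c) (h3 : c < d) :
    ({a, b, c, d} : Finset (Fin k)).card = 4 := by
  have e1 : a ≠ b := h1.ne
  have e2 : a ≠ c := (h1.trans h2).ne
  have e3 : a ≠ d := ((h1.trans h2).trans h3).ne
  have e4 : b ≠ c := h2.ne
  have e5 : b ≠ d := (h2.trans h3).ne
  have e6 : c ≠ d := h3.ne
  rw [Finset.card_insert_of_notMem (by simp [e1, e2, e3]),
    Finset.card_insert_of_notMem (by simp [e4, e5]), Finset.card_pair e6]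

lemma four_mem_Fam (hΔ : 3 ≤ Δ) {a b c d i j : Fin k} (h1 : a < b) (h2 : b < c) (h3 : c < d)
    (h : Pat a b c d i j) : ({a, b, c, d} : Finset (Fin k)) ∈ Fam Δ i j := by
  have h4 := card_four h1 h2 h3
  rw [mem_Fam]
  exact ⟨h.mem.1, h.mem.2, by omega, by omega, Or.inr (Or.inl ⟨h4, a, b, c, d, h1, h2, h3, rfl, h⟩)⟩

/-- `PG r i j`: the big sets of the family of `i, j` are in the component of `r`. -/
def PG (k Δ : ℕ) (r : Fin k × Finset (Fin k)) (i j : Fin k) : Prop :=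
  ∃ C ∈ Fam Δ i j, 3 ≤ C.card ∧ ∀ x ∈ C, R k Δ r (x, C)

lemma PG.all {r : Fin k × Finset (Fin k)} {i j : Fin k} (h : PG k Δ r i j) (hij : i < j)
    (hΔ : 1 ≤ Δ) {D : Finset (Fin k)} (hD : D ∈ Fam Δ i j) {y : Fin k} (hy : y ∈ D)
    (hD' : 3 ≤ D.card ∨ y = i ∨ y = j) : R k Δ r (y, D) := by
  obtain ⟨C, hC, hC3, hall⟩ := h
  have hi : i ∈ C := (good_of_mem hC).1
  exact (hall i hi).trans (R_fam hij hΔ hC hC3 hD hi hy hD')

lemma PG.link {r : Fin k × Finset (Fin k)} {i j i' j' : Fin k} (h : PG k Δ r i j) (hij : i < j)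
    (hΔ : 1 ≤ Δ) {C : Finset (Fin k)} (hC : C ∈ Fam Δ i j) (hC' : C ∈ Fam Δ i' j')
    (h3 : 3 ≤ C.card) : PG k Δ r i' j' :=
  ⟨C, hC', h3, fun _ hx => h.all hij hΔ hC hx (Or.inl h3)⟩

lemma PG.link4 {r : Fin k × Finset (Fin k)} {i j i' j' a b c d : Fin k} (h : PG k Δ r i j)
    (hij : i < j) (hΔ : 3 ≤ Δ) (h1 : a < b) (h2 : b < c) (h3 : c < d)
    (hP : Pat a b c d i j) (hP' : Pat a b c d i' j') : PG k Δ r i' j' :=
  h.link hij (by omega) (four_mem_Fam hΔ h1 h2 h3 hP) (four_mem_Fam hΔ h1 h2 h3 hP')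
    (by rw [card_four h1 h2 h3]; omega)

/-- All pairs are good. -/
lemma PG_all (hk : 5 ≤ k) (hΔ : 3 ≤ Δ) : ∃ r : Fin k × Finset (Fin k), Valid Δ r ∧
    ∀ i j : Fin k, i < j → PG k Δ r i j := by
  -- elements
  set f0 : Fin k := ⟨0, by omega⟩ with hf0
  set f1 : Fin k := ⟨1, by omega⟩ with hf1
  set f2 : Fin k := ⟨2, by omega⟩ with hf2
  set f3 : Fin k := ⟨3, by omega⟩ with hf3
  set f4 : Fin k := ⟨4, by omega⟩ with hf4
  have l01 : f0 < f1 := by simp [hf0, hf1, Fin.lt_def]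
  have l12 : f1 < f2 := by simp [hf1, hf2, Fin.lt_def]
  have l23 : f2 < f3 := by simp [hf2, hf3, Fin.lt_def]
  have l34 : f3 < f4 := by simp [hf3, hf4, Fin.lt_def]
  have v0 : f0.val = 0 := rfl
  have v1 : f1.val = 1 := rfl
  have v2 : f2.val = 2 := rfl
  have v3 : f3.val = 3 := rfl
  have v4 : f4.val = 4 := rfl
  have m0 : f0 ∈ ({f0, f1, f2, f3} : Finset (Fin k)) := by simp
  have c4 := card_four l01 l12 l23
  -- patterns
  have P1 : ∀ b c d i j : Fin k, c.val = b.val + 1 → 4 ≤ d.val →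
      ((i = b ∧ j = d) ∨ (i = f0 ∧ j = d) ∨ (i = f0 ∧ j = c)) → Pat f0 b c d i j := by
    intro b c d i j h1 h2 h
    unfold Pat
    rw [if_pos ⟨v0, h1, h2⟩]
    exact h
  have P2 : ∀ c d i j : Fin k, ¬ (c.val = 2 ∧ 4 ≤ d.val) → d.val = c.val + 1 →
      ((i = f0 ∧ j = f1) ∨ (i = f1 ∧ j = c) ∨ (i = c ∧ j = d)) → Pat f0 f1 c d i j := by
    intro c d i j h1 h2 h
    unfold Pat
    rw [if_neg (by rw [v1]; intro h'; exact h1 ⟨h'.2.1, h'.2.2⟩), if_pos ⟨v0, v1, h2⟩]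
    exact h
  have P3 : ∀ i j : Fin k, ((i = f1 ∧ j = f4) ∨ (i = f1 ∧ j = f2) ∨ (i = f2 ∧ j = f3)) →
      Pat f1 f2 f3 f4 i j := by
    intro i j h
    unfold Pat
    rw [if_neg (by rw [v1]; omega), if_neg (by rw [v1]; omega)]
    exact h
  set r : Fin k × Finset (Fin k) := (f0, {f0, f1, f2, f3}) with hr
  have hΔ1 : 1 ≤ Δ := by omega
  have hvalid : Valid Δ r := ⟨m0, by rw [hr]; simp only; omega, by rw [hr]; simp only; omega⟩
  refine ⟨r, hvalid, ?_⟩
  have g01 : PG k Δ r f0 f1 := by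
    refine ⟨{f0, f1, f2, f3}, four_mem_Fam hΔ l01 l12 l23
      (P2 f2 f3 f0 f1 (by omega) (by omega) (by simp)), by omega, ?_⟩
    intro x hx
    exact R_block (by omega) (by omega) m0 hx
  have g12 : PG k Δ r f1 f2 := g01.link4 l01 hΔ l01 l12 l23
    (P2 f2 f3 _ _ (by omega) (by omega) (by simp)) (P2 f2 f3 _ _ (by omega) (by omega) (by simp))
  have g23 : PG k Δ r f2 f3 := g01.link4 l01 hΔ l01 l12 l23
    (P2 f2 f3 _ _ (by omega) (by omega) (by simp)) (P2 f2 f3 _ _ (by omega) (by omega) (by simp))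
  have g14 : PG k Δ r f1 f4 := g12.link4 l12 hΔ l12 l23 l34
    (P3 _ _ (by simp)) (P3 _ _ (by simp))
  have l24 : f2 < f4 := l23.trans l34
  have g02 : PG k Δ r f0 f2 := g14.link4 (l12.trans l24) hΔ l01 l12 l24
    (P1 f1 f2 f4 _ _ (by omega) (by omega) (by simp))
    (P1 f1 f2 f4 _ _ (by omega) (by omega) (by simp))
  have gsucc : ∀ i j : Fin k, j.val = i.val + 1 → 4 ≤ j.val → PG k Δ r i j := by
    intro i j hj hj4
    exact g01.link4 l01 hΔ l01 (Fin.lt_def.2 (by omega) : f1 < i) (Fin.lt_def.2 (by omega))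
      (P2 i j _ _ (by omega) (by omega) (by simp)) (P2 i j _ _ (by omega) (by omega) (by simp))
  have g13 : PG k Δ r f1 f3 := g01.link4 l01 hΔ l01 (l12.trans l23) l34
      (P2 f3 f4 _ _ (by omega) (by omega) (by simp)) (P2 f3 f4 _ _ (by omega) (by omega) (by simp))
  have g0j : ∀ j : Fin k, 4 ≤ j.val → PG k Δ r f0 j := by
    intro j hj4
    exact g02.link4 (l01.trans l12) hΔ l01 l12 (Fin.lt_def.2 (by omega) : f2 < j)
      (P1 f1 f2 j _ _ (by omega) (by omega) (by simp))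
      (P1 f1 f2 j _ _ (by omega) (by omega) (by simp))
  have gij : ∀ i j : Fin k, 1 ≤ i.val → i.val + 2 ≤ j.val → 4 ≤ j.val → PG k Δ r i j := by
    intro i j hi hij hj4
    have hc : i.val + 1 < k := by omega
    set c : Fin k := ⟨i.val + 1, hc⟩ with hcdef
    have vc : c.val = i.val + 1 := rfl
    exact (g0j j hj4).link4 (Fin.lt_def.2 (by omega)) hΔ (Fin.lt_def.2 (by omega) : f0 < i)
      (Fin.lt_def.2 (by omega) : i < c) (Fin.lt_def.2 (by omega) : c < j)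
      (P1 i c j _ _ (by omega) (by omega) (by simp))
      (P1 i c j _ _ (by omega) (by omega) (by simp))
  have g03 : PG k Δ r f0 f3 := (g0j f4 (by omega)).link4
      (((l01.trans l12).trans l23).trans l34) hΔ (l01.trans l12) l23 l34
      (P1 f2 f3 f4 _ _ (by omega) (by omega) (by simp))
      (P1 f2 f3 f4 _ _ (by omega) (by omega) (by simp))
  intro i j hij
  rw [Fin.lt_def] at hij
  by_cases hj : 4 ≤ j.val
  · by_cases hi : i.val = 0
    · have : i = f0 := Fin.ext hi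
      rw [this]; exact g0j j hj
    · by_cases hs : j.val = i.val + 1
      · exact gsucc i j hs hj
      · exact gij i j (by omega) (by omega) hj
  · have hcases : (i.val = 0 ∧ j.val = 1) ∨ (i.val = 0 ∧ j.val = 2) ∨ (i.val = 0 ∧ j.val = 3) ∨
        (i.val = 1 ∧ j.val = 2) ∨ (i.val = 1 ∧ j.val = 3) ∨ (i.val = 2 ∧ j.val = 3) := by omega
    rcases hcases with ⟨h1, h2⟩ | ⟨h1, h2⟩ | ⟨h1, h2⟩ | ⟨h1, h2⟩ | ⟨h1, h2⟩ | ⟨h1, h2⟩
    · have e1 : i = f0 := Fin.ext h1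
      have e2 : j = f1 := Fin.ext h2
      rw [e1, e2]; exact g01
    · have e1 : i = f0 := Fin.ext h1
      have e2 : j = f2 := Fin.ext h2
      rw [e1, e2]; exact g02
    · have e1 : i = f0 := Fin.ext h1
      have e2 : j = f3 := Fin.ext h2
      rw [e1, e2]; exact g03
    · have e1 : i = f1 := Fin.ext h1
      have e2 : j = f2 := Fin.ext h2
      rw [e1, e2]; exact g12
    · have e1 : i = f1 := Fin.ext h1
      have e2 : j = f3 := Fin.ext h2
      rw [e1, e2]; exact g13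
    · have e1 : i = f2 := Fin.ext h1
      have e2 : j = f3 := Fin.ext h2
      rw [e1, e2]; exact g23

/-- The graph is connected. -/
theorem connected (hk : 5 ≤ k) (hΔ : 3 ≤ Δ) : (sys k Δ).graph.Connected := by
  obtain ⟨r, hr, hPG⟩ := PG_all (k := k) (Δ := Δ) hk hΔ
  have hΔ1 : 1 ≤ Δ := by omega
  have key : ∀ p : Fin k × Finset (Fin k), Valid Δ p → R k Δ r p := by
    rintro ⟨x, C⟩ ⟨hx, h2, hle⟩
    simp only at hx h2 hle
    have hne : C.Nonempty := ⟨x, hx⟩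
    by_cases hc2 : C.card = 2
    · obtain ⟨u, v, huv, rfl⟩ := Finset.card_eq_two.1 hc2
      rcases lt_or_gt_of_ne huv with h | h
      · refine (hPG u v h).all h hΔ1 (pair_mem h hΔ1) hx (Or.inr ?_)
        simpa using hx
      · have e : ({u, v} : Finset (Fin k)) = {v, u} := Finset.pair_comm u v
        rw [e] at hx ⊢
        refine (hPG v u h).all h hΔ1 (pair_mem h hΔ1) hx (Or.inr ?_)
        simpa using hx
    · have h3 : 3 ≤ C.card := by omega
      by_cases hc4 : C.card = 4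
      · obtain ⟨a, b, c, d, hab, hbc, hcd, rfl⟩ := exists_sorted hc4
        have hP : Pat a b c d a d ∨ Pat a b c d a b := by
          unfold Pat
          split_ifs <;> simp
        rcases hP with hP | hP
        · exact (hPG a d ((hab.trans hbc).trans hcd)).all ((hab.trans hbc).trans hcd) hΔ1
            (four_mem_Fam hΔ hab hbc hcd hP) hx (Or.inl h3)
        · exact (hPG a b hab).all hab hΔ1 (four_mem_Fam hΔ hab hbc hcd hP) hx (Or.inl h3)
      · have hlt : C.min' hne < C.max' hne :=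
          Finset.min'_lt_max'_of_card C (by omega)
        refine (hPG _ _ hlt).all hlt hΔ1 ?_ hx (Or.inl h3)
        rw [mem_Fam]
        exact ⟨Finset.min'_mem C hne, Finset.max'_mem C hne, h2, hle,
          Or.inr (Or.inr ⟨hc4, fun z hz => ⟨Finset.min'_le C z hz, Finset.le_max' C z hz⟩⟩)⟩
  have hroot : ∀ p : Vert k Δ, (sys k Δ).graph.Reachable ⟨r, hr⟩ p := by
    rintro ⟨p, hp⟩
    obtain ⟨_, _, h⟩ := key p hp
    exact h
  have : Nonempty (Vert k Δ) := ⟨⟨r, hr⟩⟩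
  exact SimpleGraph.Connected.mk fun u v => (hroot u).symm.trans (hroot v)

end Pool.Agent.Lib.MP_3eb9f6_co
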