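import Mathlib

/-!
Construction of a connected graph with a neighbour-locating colouring of extremal order.

The vertices are the pairs `(x, C)` with `x ∈ C ⊆ [k]`, `2 ≤ |C| ≤ Δ + 1`; the colour of `(x, C)`
is `x`. The basic graph is the disjoint union of the complete graphs on `{(x, C) : x ∈ C}`, and for
every pair of colours `i < j` the edges between `(i, C)` and `(j, C)` are rewired by a permutation
of the sets `C` that contain both `i` and `j`.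
-/

namespace Pool.Agent.Lib.MP_3eb9f6_co

open Finset

variable {k Δ : ℕ}

/-- The vertices: pairs `(x, C)` with `x ∈ C` and `2 ≤ |C| ≤ Δ + 1`. -/
def Valid (Δ : ℕ) (p : Fin k × Finset (Fin k)) : Prop :=
  p.1 ∈ p.2 ∧ 2 ≤ p.2.card ∧ p.2.card ≤ Δ + 1

instance (Δ : ℕ) : DecidablePred (Valid (k := k) Δ) := fun p => by
  unfold Valid; infer_instance

/-- The vertex type. -/
abbrev Vert (k Δ : ℕ) : Type := {p : Fin k × Finset (Fin k) // Valid Δ p}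

/-- A system of permutations used to rewire the edges. -/
structure Sys (k Δ : ℕ) where
  σ : Fin k → Fin k → Equiv.Perm (Finset (Fin k))
  inv : ∀ i j, i ≠ j → ∀ C, σ j i (σ i j C) = C
  mem : ∀ i j C, i ≠ j → i ∈ C → j ∈ C → 2 ≤ C.card → C.card ≤ Δ + 1 →
    (i ∈ σ i j C ∧ j ∈ σ i j C ∧ 2 ≤ (σ i j C).card ∧ (σ i j C).card ≤ Δ + 1)

/-- The rewired graph. -/
def Sys.graph (S : Sys k Δ) : SimpleGraph (Vert k Δ) where
  Adj p q := p.1.1 ≠ q.1.1 ∧ q.1.1 ∈ p.1.2 ∧ q.1.2 = S.σ p.1.1 q.1.1 p.1.2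
  symm := ⟨by
    rintro ⟨⟨i, C⟩, hi⟩ ⟨⟨j, D⟩, hj⟩ ⟨h1, h2, h3⟩
    simp only at h1 h2 h3 ⊢
    have := S.mem i j C h1 hi.1 h2 hi.2.1 hi.2.2
    refine ⟨h1.symm, ?_, ?_⟩
    · rw [h3]; exact this.1
    · rw [h3, S.inv i j h1]⟩
  loopless := ⟨by
    rintro ⟨⟨i, C⟩, hi⟩ ⟨h1, -⟩
    exact h1 rfl⟩

lemma Sys.adj_iff (S : Sys k Δ) (p q : Vert k Δ) :
    S.graph.Adj p q ↔ p.1.1 ≠ q.1.1 ∧ q.1.1 ∈ p.1.2 ∧ q.1.2 = S.σ p.1.1 q.1.1 p.1.2 := Iff.rfl

/-- The neighbour of `p` of colour `j`. -/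
def Sys.nb (S : Sys k Δ) (p : Vert k Δ) (j : Fin k) (hj : j ∈ p.1.2) (hne : p.1.1 ≠ j) :
    Vert k Δ :=
  ⟨(j, S.σ p.1.1 j p.1.2), by
    have := S.mem p.1.1 j p.1.2 hne p.2.1 hj p.2.2.1 p.2.2.2
    exact ⟨this.2.1, this.2.2.1, this.2.2.2⟩⟩

lemma Sys.adj_nb (S : Sys k Δ) (p : Vert k Δ) (j : Fin k) (hj : j ∈ p.1.2) (hne : p.1.1 ≠ j) :
    S.graph.Adj p (S.nb p j hj hne) := by
  rw [S.adj_iff]
  exact ⟨hne, hj, rfl⟩

/-- The colours of the neighbours of `(i, C)` are exactly the elements of `C \ {i}`. -/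
lemma Sys.image_neighborSet (S : Sys k Δ) (p : Vert k Δ) :
    (fun q : Vert k Δ => q.1.1) '' S.graph.neighborSet p = (p.1.2.erase p.1.1 : Set (Fin k)) := by
  ext j
  simp only [Set.mem_image, SimpleGraph.mem_neighborSet, Finset.coe_erase, Set.mem_sdiff,
    Finset.mem_coe, Set.mem_singleton_iff]
  constructor
  · rintro ⟨q, hq, rfl⟩
    rw [S.adj_iff] at hq
    exact ⟨hq.2.1, fun h => hq.1 h.symm⟩
  · rintro ⟨hj, hne⟩
    exact ⟨S.nb p j hj (fun h => hne h.symm), S.adj_nb p j hj _, rfl⟩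

lemma Sys.injOn_neighborSet (S : Sys k Δ) (p : Vert k Δ) :
    Set.InjOn (fun q : Vert k Δ => q.1.1) (S.graph.neighborSet p) := by
  rintro ⟨⟨j, D⟩, hD⟩ hq ⟨⟨j', D'⟩, hD'⟩ hq' h
  simp only at h
  subst h
  rw [SimpleGraph.mem_neighborSet, S.adj_iff] at hq hq'
  have : D = D' := by
    have h1 := hq.2.2
    have h2 := hq'.2.2
    simp only at h1 h2
    rw [h1, h2]
  subst this
  rfl

lemma Sys.ncard_neighborSet (S : Sys k Δ) (p : Vert k Δ) :
    (S.graph.neighborSet p).ncard = p.1.2.card - 1 := by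
  rw [← (S.injOn_neighborSet p).ncard_image, S.image_neighborSet,
    Set.ncard_coe_finset, Finset.card_erase_of_mem p.2.1]

end Pool.Agent.Lib.MP_3eb9f6_co
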