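import Pool.Agent.Lib.MP_3eb9f6_co.Connected

namespace Pool.Agent.Lib.MP_3eb9f6_co

open Finset

/-- The number of vertices. -/
theorem card_Vert (k Δ : ℕ) :
    Fintype.card (Vert k Δ) = ∑ j ∈ Finset.Icc 1 Δ, k * (k - 1).choose j := by
  classical
  have h1 : Fintype.card (Vert k Δ) =
      ((Finset.univ : Finset (Fin k × Finset (Fin k))).filter (Valid Δ)).card :=
    Fintype.card_subtype _
  rw [h1, Finset.card_filter, Fintype.sum_prod_type_right]
  have h2 : ∀ C : Finset (Fin k), (∑ x : Fin k, if Valid Δ (x, C) then 1 else 0) =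
      if C.card ∈ Finset.Icc 2 (Δ + 1) then C.card else 0 := by
    intro C
    by_cases hC : C.card ∈ Finset.Icc 2 (Δ + 1)
    · rw [if_pos hC]
      rw [Finset.mem_Icc] at hC
      have : ∀ x : Fin k, (if Valid Δ (x, C) then 1 else 0) = if x ∈ C then 1 else 0 := by
        intro x
        simp [Valid, hC.1, hC.2]
      rw [Finset.sum_congr rfl fun x _ => this x]
      simp
    · rw [if_neg hC]
      rw [Finset.mem_Icc] at hC
      apply Finset.sum_eq_zero
      intro x _
      rw [if_neg]
      rintro ⟨-, h⟩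
      exact hC h
  rw [Finset.sum_congr rfl fun C _ => h2 C]
  have h3 : (∑ C : Finset (Fin k), if C.card ∈ Finset.Icc 2 (Δ + 1) then C.card else 0) =
      ∑ s ∈ Finset.Icc 2 (Δ + 1), k.choose s * s := by
    have : ∀ C : Finset (Fin k), (if C.card ∈ Finset.Icc 2 (Δ + 1) then C.card else 0) =
        ∑ s ∈ Finset.Icc 2 (Δ + 1), if C.card = s then s else 0 := by
      intro C
      rw [Finset.sum_ite_eq]
    rw [Finset.sum_congr rfl fun C _ => this C, Finset.sum_comm]
    refine Finset.sum_congr rfl fun s _ => ?_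
    rw [← Finset.sum_filter, Finset.sum_const, smul_eq_mul]
    congr 1
    have h := Finset.card_powersetCard s (Finset.univ : Finset (Fin k))
    rw [Finset.card_univ, Fintype.card_fin] at h
    rw [← h]
    congr 1
    ext C
    simp [Finset.mem_powersetCard]
  rw [h3]
  have h4 : Finset.Icc 2 (Δ + 1) = (Finset.Icc 1 Δ).image (· + 1) := by
    ext s
    simp only [Finset.mem_Icc, Finset.mem_image]
    constructor
    · rintro ⟨a, b⟩
      exact ⟨s - 1, by omega, by omega⟩
    · rintro ⟨t, ⟨a, b⟩, rfl⟩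
      omega
  rw [h4, Finset.sum_image (by intro a _ b _ h; simpa using h)]
  refine Finset.sum_congr rfl fun j _ => ?_
  rcases Nat.eq_zero_or_pos k with rfl | hk
  · simp
  · obtain ⟨m, rfl⟩ := Nat.exists_eq_succ_of_ne_zero hk.ne'
    simp only [Nat.succ_eq_add_one, Nat.add_sub_cancel]
    exact (Nat.add_one_mul_choose_eq m j).symm

/-- The bound grows strictly with the number of colours. -/
theorem card_strict {k k' Δ : ℕ} (hk : 2 ≤ k) (hΔ : 1 ≤ Δ) (h : k' < k) :
    ∑ j ∈ Finset.Icc 1 Δ, k' * (k' - 1).choose j < ∑ j ∈ Finset.Icc 1 Δ, k * (k - 1).choose j := by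
  apply Finset.sum_lt_sum
  · intro j _
    exact Nat.mul_le_mul h.le (Nat.choose_le_choose j (by omega))
  · refine ⟨1, by simp [hΔ], ?_⟩
    simp only [Nat.choose_one_right]
    rcases Nat.eq_zero_or_pos k' with rfl | h0
    · simp only [zero_mul]
      exact Nat.mul_pos (by omega) (by omega)
    · exact Nat.mul_lt_mul_of_lt_of_le h (by omega) (by omega)

end Pool.Agent.Lib.MP_3eb9f6_co
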