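import Pool.Agent.Lib.MP_3eb9f6_co.Construction

namespace Pool.Agent.Lib.MP_3eb9f6_co

open Finset

variable {k Δ : ℕ}

/-- The three pairs (forming a path) assigned to a four-element set `a < b < c < d`. -/
def Pat (a b c d i j : Fin k) : Prop :=
  if a.val = 0 ∧ c.val = b.val + 1 ∧ 4 ≤ d.val then
    (i = b ∧ j = d) ∨ (i = a ∧ j = d) ∨ (i = a ∧ j = c)
  else if a.val = 0 ∧ b.val = 1 ∧ d.val = c.val + 1 then
    (i = a ∧ j = b) ∨ (i = b ∧ j = c) ∨ (i = c ∧ j = d)
  else (i = a ∧ j = d) ∨ (i = a ∧ j = b) ∨ (i = b ∧ j = c)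

/-- Membership in the family of sets permuted cyclically for the pair `i < j`. -/
def InFam (Δ : ℕ) (i j : Fin k) (C : Finset (Fin k)) : Prop :=
  i ∈ C ∧ j ∈ C ∧ 2 ≤ C.card ∧ C.card ≤ Δ + 1 ∧
    (C.card = 2 ∨
      (C.card = 4 ∧ ∃ a b c d : Fin k, a < b ∧ b < c ∧ c < d ∧ C = {a, b, c, d} ∧ Pat a b c d i j) ∨
      (C.card ≠ 4 ∧ ∀ x ∈ C, i ≤ x ∧ x ≤ j))

open Classical in
/-- The family as a finset. -/
noncomputable def Fam (Δ : ℕ) (i j : Fin k) : Finset (Finset (Fin k)) :=
  Finset.univ.filter (InFam Δ i j)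

lemma mem_Fam {i j : Fin k} {C : Finset (Fin k)} : C ∈ Fam Δ i j ↔ InFam Δ i j C := by
  simp [Fam]

/-- the chosen cyclic permutation -/
noncomputable def cyc (Δ : ℕ) (i j : Fin k) : Equiv.Perm (Finset (Fin k)) :=
  (Finset.exists_cycleOn (Fam Δ i j)).choose

lemma cyc_isCycleOn (i j : Fin k) : (cyc Δ i j).IsCycleOn (Fam Δ i j : Set (Finset (Fin k))) :=
  (Finset.exists_cycleOn (Fam Δ i j)).choose_spec.1

lemma cyc_apply_of_notMem {i j : Fin k} {C : Finset (Fin k)} (h : C ∉ Fam Δ i j) :
    cyc Δ i j C = C := by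
  by_contra hne
  exact h ((Finset.exists_cycleOn (Fam Δ i j)).choose_spec.2 (Equiv.Perm.mem_support.2 hne))

lemma cyc_mem {i j : Fin k} {C : Finset (Fin k)} (h : C ∈ Fam Δ i j) : cyc Δ i j C ∈ Fam Δ i j := by
  have := (cyc_isCycleOn (Δ := Δ) i j).apply_mem_iff (x := C)
  simpa using this.2 (by simpa using h)

lemma cyc_inv_mem {i j : Fin k} {C : Finset (Fin k)} (h : C ∈ Fam Δ i j) :
    (cyc Δ i j)⁻¹ C ∈ Fam Δ i j := by
  have := (cyc_isCycleOn (Δ := Δ) i j).apply_mem_iff (x := (cyc Δ i j)⁻¹ C)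
  have e : cyc Δ i j ((cyc Δ i j)⁻¹ C) = C := by simp
  rw [e] at this
  exact this.1 h

lemma cyc_inv_apply_of_notMem {i j : Fin k} {C : Finset (Fin k)} (h : C ∉ Fam Δ i j) :
    (cyc Δ i j)⁻¹ C = C := by
  rw [Equiv.Perm.inv_eq_iff_eq]
  exact (cyc_apply_of_notMem h).symm

lemma good_of_mem {i j : Fin k} {C : Finset (Fin k)} (h : C ∈ Fam Δ i j) :
    i ∈ C ∧ j ∈ C ∧ 2 ≤ C.card ∧ C.card ≤ Δ + 1 := by
  rw [mem_Fam] at h
  exact ⟨h.1, h.2.1, h.2.2.1, h.2.2.2.1⟩

/-- The system of permutations. -/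
noncomputable def sys (k Δ : ℕ) : Sys k Δ where
  σ i j := if i < j then cyc Δ i j else (cyc Δ j i)⁻¹
  inv := by
    intro i j hij C
    rcases lt_or_gt_of_ne hij with h | h
    · simp [h, not_lt_of_gt h]
    · simp [h, not_lt_of_gt h]
  mem := by
    intro i j C hij hi hj h2 hΔ
    rcases lt_or_gt_of_ne hij with h | h
    · simp only [h, if_true]
      by_cases hC : C ∈ Fam Δ i j
      · exact good_of_mem (cyc_mem hC)
      · rw [cyc_apply_of_notMem hC]; exact ⟨hi, hj, h2, hΔ⟩
    · simp only [not_lt_of_gt h, if_false]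
      by_cases hC : C ∈ Fam Δ j i
      · have := good_of_mem (cyc_inv_mem hC)
        exact ⟨this.2.1, this.1, this.2.2⟩
      · rw [cyc_inv_apply_of_notMem hC]; exact ⟨hi, hj, h2, hΔ⟩

/-- Reachability between pairs. -/
def R (k Δ : ℕ) (p q : Fin k × Finset (Fin k)) : Prop :=
  ∃ (hp : Valid Δ p) (hq : Valid Δ q), (sys k Δ).graph.Reachable ⟨p, hp⟩ ⟨q, hq⟩

lemma R.refl {p : Fin k × Finset (Fin k)} (hp : Valid Δ p) : R k Δ p p :=
  ⟨hp, hp, SimpleGraph.Reachable.refl _⟩

lemma R.symm {p q : Fin k × Finset (Fin k)} (h : R k Δ p q) : R k Δ q p := by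
  obtain ⟨hp, hq, h⟩ := h
  exact ⟨hq, hp, h.symm⟩

lemma R.trans {p q r : Fin k × Finset (Fin k)} (h : R k Δ p q) (h' : R k Δ q r) : R k Δ p r := by
  obtain ⟨hp, hq, h⟩ := h
  obtain ⟨hq', hr, h'⟩ := h'
  exact ⟨hp, hr, h.trans h'⟩

lemma R_step {i j : Fin k} {C : Finset (Fin k)} (hij : i < j) (hi : i ∈ C) (hj : j ∈ C)
    (h2 : 2 ≤ C.card) (hΔ : C.card ≤ Δ + 1) : R k Δ (i, C) (j, cyc Δ i j C) := by
  have hp : Valid Δ (i, C) := ⟨hi, h2, hΔ⟩
  have h := (sys k Δ).adj_nb ⟨(i, C), hp⟩ j hj (ne_of_lt hij)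
  have e : ((sys k Δ).nb ⟨(i, C), hp⟩ j hj (ne_of_lt hij)).1 = (j, cyc Δ i j C) := by
    simp [Sys.nb, sys, hij]
  refine ⟨hp, ?_, ?_⟩
  · rw [← e]; exact ((sys k Δ).nb ⟨(i, C), hp⟩ j hj (ne_of_lt hij)).2
  · have := h.reachable
    have e' : (⟨(j, cyc Δ i j C), by rw [← e]; exact
        ((sys k Δ).nb ⟨(i, C), hp⟩ j hj (ne_of_lt hij)).2⟩ : Vert k Δ) =
        (sys k Δ).nb ⟨(i, C), hp⟩ j hj (ne_of_lt hij) := Subtype.ext e.symm
    rw [e']
    exact this

/-- Inside a set, a pair for which the set is not in the family gives an edge. -/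
lemma R_inner {i j : Fin k} {C : Finset (Fin k)} (hij : i < j) (hi : i ∈ C) (hj : j ∈ C)
    (h2 : 2 ≤ C.card) (hΔ : C.card ≤ Δ + 1) (hC : C ∉ Fam Δ i j) : R k Δ (i, C) (j, C) := by
  have := R_step hij hi hj h2 hΔ
  rwa [cyc_apply_of_notMem hC] at this

lemma sorted_unique {a b c d a' b' c' d' : Fin k} (h1 : a < b) (h2 : b < c) (h3 : c < d)
    (h1' : a' < b') (h2' : b' < c') (h3' : c' < d')
    (h : ({a, b, c, d} : Finset (Fin k)) = {a', b', c', d'}) :
    a = a' ∧ b = b' ∧ c = c' ∧ d = d' := by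
  have ha : a ∈ ({a', b', c', d'} : Finset (Fin k)) := by rw [← h]; simp
  have hb : b ∈ ({a', b', c', d'} : Finset (Fin k)) := by rw [← h]; simp
  have hc : c ∈ ({a', b', c', d'} : Finset (Fin k)) := by rw [← h]; simp
  have hd : d ∈ ({a', b', c', d'} : Finset (Fin k)) := by rw [← h]; simp
  simp only [Finset.mem_insert, Finset.mem_singleton, Fin.ext_iff] at ha hb hc hd
  simp only [Fin.lt_def, Fin.ext_iff] at *
  omega

lemma exists_sorted {C : Finset (Fin k)} (hC : C.card = 4) :
    ∃ a b c d : Fin k, a < b ∧ b < c ∧ c < d ∧ C = {a, b, c, d} := by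
  refine ⟨C.orderEmbOfFin hC 0, C.orderEmbOfFin hC 1, C.orderEmbOfFin hC 2,
    C.orderEmbOfFin hC 3, ?_, ?_, ?_, ?_⟩
  · simp
  · simp
  · simp
  · have h := Finset.range_orderEmbOfFin C hC
    ext x
    have hx : x ∈ C ↔ x ∈ Set.range (C.orderEmbOfFin hC) := by rw [h]; simp
    rw [hx]
    constructor
    · rintro ⟨i, rfl⟩
      fin_cases i <;> simp
    · intro hx
      simp only [Finset.mem_insert, Finset.mem_singleton] at hx
      rcases hx with rfl | rfl | rfl | rfl <;> exact ⟨_, rfl⟩

/-- All vertices of a big set are in one component. -/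
lemma R_block {C : Finset (Fin k)} (h3 : 3 ≤ C.card) (hΔ : C.card ≤ Δ + 1) {x y : Fin k}
    (hx : x ∈ C) (hy : y ∈ C) : R k Δ (x, C) (y, C) := by
  have h2 : 2 ≤ C.card := by omega
  by_cases h4 : C.card = 4
  · obtain ⟨a, b, c, d, hab, hbc, hcd, hC⟩ := exists_sorted h4
    have ha : a ∈ C := by rw [hC]; simp
    have hb : b ∈ C := by rw [hC]; simp
    have hc : c ∈ C := by rw [hC]; simp
    have hd : d ∈ C := by rw [hC]; simp
    -- edges outside the pattern
    have key : ∀ i j : Fin k, i < j → i ∈ C → j ∈ C → ¬ Pat a b c d i j → R k Δ (i, C) (j, C) := by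
      intro i j hij hi hj hP
      apply R_inner hij hi hj h2 hΔ
      intro hmem
      rw [mem_Fam] at hmem
      obtain ⟨-, -, -, -, h | h | h⟩ := hmem
      · omega
      · obtain ⟨-, a', b', c', d', h1', h2', h3', hC', hP'⟩ := h
        obtain ⟨rfl, rfl, rfl, rfl⟩ := sorted_unique hab hbc hcd h1' h2' h3' (hC.symm.trans hC')
        exact hP hP'
      · exact h.1 h4
    have hac := hab.trans hbc
    have hbd := hbc.trans hcd
    have had := hac.trans hcd
    have conn : R k Δ (a, C) (b, C) ∧ R k Δ (a, C) (c, C) ∧ R k Δ (a, C) (d, C) := by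
      by_cases c1 : a.val = 0 ∧ c.val = b.val + 1 ∧ 4 ≤ d.val
      · have e1 : R k Δ (a, C) (b, C) := key a b hab ha hb (by
          unfold Pat
          rw [if_pos c1]
          simp only [Fin.ext_iff, Fin.lt_def] at *
          omega)
        have e2 : R k Δ (b, C) (c, C) := key b c hbc hb hc (by
          unfold Pat
          rw [if_pos c1]
          simp only [Fin.ext_iff, Fin.lt_def] at *
          omega)
        have e3 : R k Δ (c, C) (d, C) := key c d hcd hc hd (by
          unfold Pat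
          rw [if_pos c1]
          simp only [Fin.ext_iff, Fin.lt_def] at *
          omega)
        exact ⟨e1, e1.trans e2, (e1.trans e2).trans e3⟩
      · by_cases c2 : a.val = 0 ∧ b.val = 1 ∧ d.val = c.val + 1
        · have e1 : R k Δ (a, C) (c, C) := key a c hac ha hc (by
            unfold Pat
            rw [if_neg c1, if_pos c2]
            simp only [Fin.ext_iff, Fin.lt_def] at *
            omega)
          have e2 : R k Δ (a, C) (d, C) := key a d had ha hd (by
            unfold Pat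
            rw [if_neg c1, if_pos c2]
            simp only [Fin.ext_iff, Fin.lt_def] at *
            omega)
          have e3 : R k Δ (b, C) (d, C) := key b d hbd hb hd (by
            unfold Pat
            rw [if_neg c1, if_pos c2]
            simp only [Fin.ext_iff, Fin.lt_def] at *
            omega)
          exact ⟨e2.trans e3.symm, e1, e2⟩
        · have e1 : R k Δ (a, C) (c, C) := key a c hac ha hc (by
            unfold Pat
            rw [if_neg c1, if_neg c2]
            simp only [Fin.ext_iff, Fin.lt_def] at *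
            omega)
          have e2 : R k Δ (c, C) (d, C) := key c d hcd hc hd (by
            unfold Pat
            rw [if_neg c1, if_neg c2]
            simp only [Fin.ext_iff, Fin.lt_def] at *
            omega)
          have e3 : R k Δ (b, C) (d, C) := key b d hbd hb hd (by
            unfold Pat
            rw [if_neg c1, if_neg c2]
            simp only [Fin.ext_iff, Fin.lt_def] at *
            omega)
          exact ⟨(e1.trans e2).trans e3.symm, e1, e1.trans e2⟩
    have all : ∀ z ∈ C, R k Δ (a, C) (z, C) := by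
      intro z hz
      rw [hC] at hz
      simp only [Finset.mem_insert, Finset.mem_singleton] at hz
      rcases hz with rfl | rfl | rfl | rfl
      · exact R.refl ⟨ha, h2, hΔ⟩
      · exact conn.1
      · exact conn.2.1
      · exact conn.2.2
    exact (all x hx).symm.trans (all y hy)
  · -- choose a middle element
    have hne : C.Nonempty := Finset.card_pos.1 (by omega)
    obtain ⟨m, hm, hm1, hm2⟩ : ∃ m ∈ C, m ≠ C.min' hne ∧ m ≠ C.max' hne := by
      by_contra hcon
      push Not at hcon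
      have : C ⊆ {C.min' hne, C.max' hne} := by
        intro z hz
        simp only [Finset.mem_insert, Finset.mem_singleton]
        by_cases hz1 : z = C.min' hne
        · exact Or.inl hz1
        · exact Or.inr (hcon z hz hz1)
      have := Finset.card_le_card this
      have := Finset.card_le_two (a := C.min' hne) (b := C.max' hne)
      omega
    have hmin : C.min' hne < m := lt_of_le_of_ne (Finset.min'_le C m hm) (Ne.symm hm1)
    have hmax : m < C.max' hne := lt_of_le_of_ne (Finset.le_max' C m hm) hm2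
    have all : ∀ z ∈ C, R k Δ (m, C) (z, C) := by
      intro z hz
      rcases lt_trichotomy z m with h | h | h
      · refine (R_inner h hz hm h2 hΔ ?_).symm
        intro hmem
        rw [mem_Fam] at hmem
        obtain ⟨-, -, -, -, h' | h' | h'⟩ := hmem
        · omega
        · exact h4 h'.1
        · have := (h'.2 _ (Finset.max'_mem C hne)).2
          exact absurd hmax (not_lt.2 this)
      · rw [h]; exact R.refl ⟨hm, h2, hΔ⟩
      · refine R_inner h hm hz h2 hΔ ?_
        intro hmem
        rw [mem_Fam] at hmem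
        obtain ⟨-, -, -, -, h' | h' | h'⟩ := hmem
        · omega
        · exact h4 h'.1
        · have := (h'.2 _ (Finset.min'_mem C hne)).1
          exact absurd hmin (not_lt.2 this)
    exact (all x hx).symm.trans (all y hy)

/-- The two-element set of the pair is in the family. -/
lemma pair_mem {i j : Fin k} (hij : i < j) (hΔ : 1 ≤ Δ) : ({i, j} : Finset (Fin k)) ∈ Fam Δ i j := by
  rw [mem_Fam]
  have hc : ({i, j} : Finset (Fin k)).card = 2 := Finset.card_pair (ne_of_lt hij)
  refine ⟨by simp, by simp, by omega, by omega, Or.inl hc⟩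

lemma card_of_ne_pair {i j : Fin k} (hij : i < j) {C : Finset (Fin k)} (hC : C ∈ Fam Δ i j)
    (hne : C ≠ {i, j}) : 3 ≤ C.card := by
  have h := good_of_mem hC
  rcases Nat.lt_or_ge C.card 3 with h3 | h3
  · exfalso
    apply hne
    symm
    apply Finset.eq_of_subset_of_card_le
    · intro z hz
      simp only [Finset.mem_insert, Finset.mem_singleton] at hz
      rcases hz with rfl | rfl
      · exact h.1
      · exact h.2.1
    · rw [Finset.card_pair (ne_of_lt hij)]; omega
  · exact h3

/-- All big sets of a family are in one component, and so is the two-element set if the family has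
a big set. -/
lemma R_fam {i j : Fin k} (hij : i < j) (hΔ : 1 ≤ Δ) {C D : Finset (Fin k)}
    (hC : C ∈ Fam Δ i j) (hC3 : 3 ≤ C.card) (hD : D ∈ Fam Δ i j) {x y : Fin k} (hx : x ∈ C)
    (hy : y ∈ D) (hD' : 3 ≤ D.card ∨ y = i ∨ y = j) : R k Δ (x, C) (y, D) := by
  set E : Finset (Fin k) := {i, j} with hE
  have hEm : E ∈ Fam Δ i j := pair_mem hij hΔ
  have hcyc := cyc_isCycleOn (Δ := Δ) i j
  have hmemn : ∀ n : ℕ, ((cyc Δ i j) ^ n) E ∈ Fam Δ i j := by
    intro n
    induction n with
    | zero => simpa using hEm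
    | succ n ih => rw [pow_succ', Equiv.Perm.mul_apply]; exact cyc_mem ih
  have hneE : ∀ n : ℕ, 1 ≤ n → n < (Fam Δ i j).card → ((cyc Δ i j) ^ n) E ≠ E := by
    intro n h1 h2 h
    have := (hcyc.pow_apply_eq hEm).1 h
    have := Nat.le_of_dvd (by omega) this
    omega
  have hbig : ∀ n : ℕ, 1 ≤ n → n < (Fam Δ i j).card → 3 ≤ (((cyc Δ i j) ^ n) E).card :=
    fun n h1 h2 => card_of_ne_pair hij (hmemn n) (hneE n h1 h2)
  have hchain : ∀ n : ℕ, n + 1 < (Fam Δ i j).card →
      R k Δ (i, cyc Δ i j E) (i, ((cyc Δ i j) ^ (n + 1)) E) := by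
    intro n
    induction n with
    | zero =>
      intro h
      have hm := good_of_mem (cyc_mem hEm)
      simpa using R.refl (Δ := Δ) (p := (i, cyc Δ i j E)) ⟨hm.1, hm.2.2.1, hm.2.2.2⟩
    | succ n ih =>
      intro h
      have ih' := ih (by omega)
      have hm := good_of_mem (hmemn (n + 1))
      have s1 := R_step hij hm.1 hm.2.1 hm.2.2.1 hm.2.2.2
      have hm2 := good_of_mem (hmemn (n + 2))
      have e : cyc Δ i j (((cyc Δ i j) ^ (n + 1)) E) = ((cyc Δ i j) ^ (n + 2)) E := by
        rw [pow_succ' _ (n + 1), Equiv.Perm.mul_apply]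
      rw [e] at s1
      have s2 := R_block (hbig (n + 2) (by omega) (by omega)) hm2.2.2.2 hm2.2.1 hm2.1
      exact (ih'.trans s1).trans s2
  have hbigmem : ∀ X ∈ Fam Δ i j, 3 ≤ X.card → ∀ z ∈ X, R k Δ (i, cyc Δ i j E) (z, X) := by
    intro X hX hX3 z hz
    obtain ⟨n, hn, hn'⟩ := hcyc.exists_pow_eq (by simpa using hEm) (by simpa using hX)
    have hn0 : n ≠ 0 := by
      rintro rfl
      simp only [pow_zero, Equiv.Perm.coe_one, id_eq] at hn'
      rw [← hn', hE, Finset.card_pair (ne_of_lt hij)] at hX3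
      omega
    obtain ⟨m, rfl⟩ := Nat.exists_eq_succ_of_ne_zero hn0
    have h1 := hchain m (by omega)
    rw [Nat.succ_eq_add_one] at hn'
    rw [hn'] at h1
    exact h1.trans (R_block hX3 (good_of_mem hX).2.2.2 (good_of_mem hX).1 hz)
  have hcard : 2 ≤ (Fam Δ i j).card := by
    have hCE : C ≠ E := by
      rintro rfl
      rw [hE, Finset.card_pair (ne_of_lt hij)] at hC3
      omega
    have : ({C, E} : Finset (Finset (Fin k))) ⊆ Fam Δ i j := by
      intro z hz
      simp only [Finset.mem_insert, Finset.mem_singleton] at hz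
      rcases hz with rfl | rfl
      · exact hC
      · exact hEm
    have := Finset.card_le_card this
    rw [Finset.card_pair hCE] at this
    exact this
  by_cases hD3 : 3 ≤ D.card
  · exact (hbigmem C hC hC3 x hx).symm.trans (hbigmem D hD hD3 y hy)
  · have hDE : D = E := by
      by_contra hne
      exact hD3 (card_of_ne_pair hij hD hne)
    subst hDE
    have hmE := good_of_mem hEm
    rcases hD'.resolve_left hD3 with rfl | rfl
    · -- `(i, E)` is adjacent to `(j, τ E)`
      have s1 := R_step hij hmE.1 hmE.2.1 hmE.2.2.1 hmE.2.2.2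
      have hm1 := good_of_mem (cyc_mem hEm)
      have hb1 : 3 ≤ (cyc Δ y j E).card := by
        have := hbig 1 le_rfl (by omega)
        simpa using this
      exact ((hbigmem C hC hC3 x hx).symm.trans (hbigmem _ (cyc_mem hEm) hb1 j hm1.2.1)).trans
        s1.symm
    · -- `(j, E)` is adjacent to `(i, τ⁻¹ E)`
      set X := (cyc Δ i y)⁻¹ E with hX
      have hXm : X ∈ Fam Δ i y := cyc_inv_mem hEm
      have hXE : cyc Δ i y X = E := by rw [hX]; simp
      have hXne : X ≠ E := by
        intro h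
        rw [h] at hXE
        have := hneE 1 le_rfl (by omega)
        simp only [pow_one] at this
        exact this hXE
      have hmX := good_of_mem hXm
      have s1 := R_step hij hmX.1 hmX.2.1 hmX.2.2.1 hmX.2.2.2
      rw [hXE] at s1
      exact ((hbigmem C hC hC3 x hx).symm.trans
        (hbigmem X hXm (card_of_ne_pair hij hXm hXne) i hmX.1)).trans s1

end Pool.Agent.Lib.MP_3eb9f6_co
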